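import Pool.Agent.Q108.Cap.All

/-!
# MP_7bf775_co: capped ordered graphs have biclique covers of size `O(n log² n)`
-/

set_option autoImplicit false

namespace Pool.Agent.Results.MP_7bf775_co.LogSquared

open Finset Q108.Cap

/-- A capped ordered graph on `n` vertices. -/
def Capped {n : ℕ} (G : SimpleGraph (Fin n)) : Prop :=
  ∀ i j k l : Fin n, i < j → j < k → k < l → G.Adj i k → G.Adj j l → G.Adj i l

/-- A biclique: two disjoint non-empty vertex sets with all edges between them. -/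
def IsBiclique {n : ℕ} (G : SimpleGraph (Fin n)) (A B : Finset (Fin n)) : Prop :=
  A.Nonempty ∧ B.Nonempty ∧ Disjoint A B ∧ ∀ a ∈ A, ∀ b ∈ B, G.Adj a b

/-- A biclique cover: a finite family of bicliques such that every edge is an edge of one of
them. -/
def IsBicliqueCover {n : ℕ} (G : SimpleGraph (Fin n))
    (L : List (Finset (Fin n) × Finset (Fin n))) : Prop :=
  (∀ p ∈ L, IsBiclique G p.1 p.2) ∧
    ∀ u v, G.Adj u v → ∃ p ∈ L, (u ∈ p.1 ∧ v ∈ p.2) ∨ (v ∈ p.1 ∧ u ∈ p.2)

/-- The size of a biclique cover: the total number of vertex occurrences. -/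
def size {n : ℕ} (L : List (Finset (Fin n) × Finset (Fin n))) : ℕ :=
  (L.map fun p => p.1.card + p.2.card).sum

/-- the adjacency relation on natural numbers -/
def EN {n : ℕ} (G : SimpleGraph (Fin n)) (a b : ℕ) : Prop :=
  ∃ (ha : a < n) (hb : b < n), G.Adj ⟨a, ha⟩ ⟨b, hb⟩

/-- the vertices with number in `S` -/
def conv {n : ℕ} (S : Finset ℕ) : Finset (Fin n) := Finset.univ.filter fun v => v.val ∈ S

theorem mem_conv {n : ℕ} {S : Finset ℕ} {v : Fin n} : v ∈ conv S ↔ v.val ∈ S := by simp [conv]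

theorem card_conv {n : ℕ} (S : Finset ℕ) : (conv S : Finset (Fin n)).card ≤ S.card := by
  refine Finset.card_le_card_of_injOn (fun v => v.val) ?_ ?_
  · intro v hv; exact mem_conv.1 hv
  · intro a _ b _ h; exact Fin.ext h

theorem transfer {n : ℕ} (G : SimpleGraph (Fin n)) (L : List (Finset ℕ × Finset ℕ))
    (hL : ∀ p ∈ L, ∀ a ∈ p.1, ∀ b ∈ p.2, a < b ∧ EN G a b) :
    ∃ L' : List (Finset (Fin n) × Finset (Fin n)), (∀ p ∈ L', IsBiclique G p.1 p.2) ∧
      (∀ u v : Fin n, (∃ p ∈ L, u.val ∈ p.1 ∧ v.val ∈ p.2) → ∃ p ∈ L', u ∈ p.1 ∧ v ∈ p.2) ∧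
      size L' ≤ (L.map fun p => p.1.card + p.2.card).sum := by
  induction L with
  | nil => exact ⟨[], by simp, by simp, by simp [size]⟩
  | cons p L ih =>
    obtain ⟨L', h1, h2, h3⟩ := ih (fun q hq => hL q (List.mem_cons_of_mem _ hq))
    by_cases hne : (conv p.1 : Finset (Fin n)).Nonempty ∧ (conv p.2 : Finset (Fin n)).Nonempty
    · refine ⟨(conv p.1, conv p.2) :: L', ?_, ?_, ?_⟩
      · intro q hq
        rcases List.mem_cons.1 hq with rfl | hq
        · refine ⟨hne.1, hne.2, ?_, ?_⟩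
          · rw [Finset.disjoint_left]
            intro v hv1 hv2
            have := (hL p List.mem_cons_self v (mem_conv.1 hv1) v (mem_conv.1 hv2)).1
            exact lt_irrefl _ this
          · intro a ha b hb
            obtain ⟨h4, h5, h6⟩ :=
              (hL p List.mem_cons_self a (mem_conv.1 ha) b (mem_conv.1 hb)).2
            exact h6
        · exact h1 q hq
      · rintro u v ⟨q, hq, h4, h5⟩
        rcases List.mem_cons.1 hq with rfl | hq
        · exact ⟨_, List.mem_cons_self, mem_conv.2 h4, mem_conv.2 h5⟩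
        · obtain ⟨r, hr, h6⟩ := h2 u v ⟨q, hq, h4, h5⟩
          exact ⟨r, List.mem_cons_of_mem _ hr, h6⟩
      · unfold size at h3 ⊢
        rw [List.map_cons, List.sum_cons, List.map_cons, List.sum_cons]
        have h4 := card_conv (n := n) p.1
        have h5 := card_conv (n := n) p.2
        simp only
        omega
    · refine ⟨L', h1, ?_, ?_⟩
      · rintro u v ⟨q, hq, h4, h5⟩
        rcases List.mem_cons.1 hq with rfl | hq
        · exact absurd ⟨⟨u, mem_conv.2 h4⟩, ⟨v, mem_conv.2 h5⟩⟩ hne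
        · exact h2 u v ⟨q, hq, h4, h5⟩
      · rw [List.map_cons, List.sum_cons]
        omega

/-- **Q1 has a positive answer**: there is an absolute constant `C` such that every capped ordered
graph on `n ≥ 2` vertices has a biclique cover of size at most `C n log² n`. -/
theorem result : ∃ C : ℝ, ∀ n : ℕ, 2 ≤ n → ∀ G : SimpleGraph (Fin n), Capped G →
    ∃ L : List (Finset (Fin n) × Finset (Fin n)), IsBicliqueCover G L ∧
      (size L : ℝ) ≤ C * n * (Real.log n) ^ 2 := by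
  refine ⟨250, fun n hn G hG => ?_⟩
  obtain ⟨N, hN⟩ : ∃ N, N = Nat.clog 2 n := ⟨_, rfl⟩
  have hn2 : n ≤ 2 ^ N := by rw [hN]; exact Nat.le_pow_clog (by norm_num) n
  obtain ⟨L, h1, h2, h3⟩ := capped_cover (n := n) (N := N) (E := EN G) hn2
    (fun a b ⟨ha, hb, _⟩ => ⟨ha, hb⟩) (by
      rintro i j k l hij hjk hkl ⟨hi, hk, h1⟩ ⟨hj, hl, h2⟩
      exact ⟨hi, hl, hG ⟨i, hi⟩ ⟨j, hj⟩ ⟨k, hk⟩ ⟨l, hl⟩ hij hjk hkl h1 h2⟩)
  obtain ⟨L', h4, h5, h6⟩ := transfer G L (fun p hp => (h1 p hp).2.2)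
  refine ⟨L', ⟨h4, ?_⟩, ?_⟩
  · intro u v huv
    rcases lt_trichotomy u v with h | h | h
    · obtain ⟨p, hp, h7, h8⟩ := h5 u v (h2 u v ⟨h, u.2, v.2, huv⟩)
      exact ⟨p, hp, Or.inl ⟨h7, h8⟩⟩
    · exact absurd h huv.ne
    · obtain ⟨p, hp, h7, h8⟩ := h5 v u (h2 v u ⟨h, v.2, u.2, huv.symm⟩)
      exact ⟨p, hp, Or.inr ⟨h7, h8⟩⟩
  · have hlog2 : (0.6931471803 : ℝ) < Real.log 2 := Real.log_two_gt_d9
    have hlogn : Real.log 2 ≤ Real.log n :=
      Real.log_le_log (by norm_num) (by exact_mod_cast hn)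
    -- `N ≤ 2 log n / log 2`
    have hNle : (N : ℝ) * Real.log 2 ≤ Real.log n + Real.log 2 := by
      have hN0 : 1 ≤ N := by
        rw [hN]
        exact Nat.clog_pos (by norm_num) hn
      have h7 : 2 ^ (N - 1) < n := by
        have := Nat.pow_pred_clog_lt_self (b := 2) (by norm_num) hn
        rw [hN]
        simpa using this
      have h8 : Real.log ((2 : ℝ) ^ (N - 1)) ≤ Real.log n :=
        Real.log_le_log (by positivity) (by exact_mod_cast h7.le)
      rw [Real.log_pow] at h8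
      have h9 : ((N - 1 : ℕ) : ℝ) = (N : ℝ) - 1 := by push_cast [hN0]; ring
      rw [h9] at h8
      linarith
    have hx : ((N : ℝ) + 1) ≤ 5 * Real.log n := by
      by_contra hcon
      push Not at hcon
      nlinarith
    have hs : (size L' : ℝ) ≤
        8 * (n * (N * (N + 1))) + 2 * (n * ((N + 1) * (N + 1))) := by
      exact_mod_cast h6.trans h3
    have hN0 : (0 : ℝ) ≤ N := Nat.cast_nonneg _
    have hn0 : (0 : ℝ) ≤ n := Nat.cast_nonneg _
    have h10 : ((N : ℝ) + 1) * (N + 1) ≤ 25 * (Real.log n) ^ 2 := by nlinarith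
    have h11 : (N : ℝ) * (N + 1) ≤ 25 * (Real.log n) ^ 2 := by nlinarith
    have h12 : (n : ℝ) * (((N : ℝ) + 1) * (N + 1)) ≤ n * (25 * (Real.log n) ^ 2) :=
      mul_le_mul_of_nonneg_left h10 hn0
    have h13 : (n : ℝ) * ((N : ℝ) * (N + 1)) ≤ n * (25 * (Real.log n) ^ 2) :=
      mul_le_mul_of_nonneg_left h11 hn0
    nlinarith

end Pool.Agent.Results.MP_7bf775_co.LogSquared
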